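import Pool.Agent.H73.AZ.Circ
import Pool.Agent.H73.AD.Two
import Pool.Agent.H86.AD.ChainB

/-! Good assignments are hard, part 1: nodes of a schedule. -/

namespace Pool.Agent.H73.AZ

open Finset Matrix Pool.Agent.H73.QA Pool.Agent.H73.AD

set_option linter.unusedSectionVars false
set_option linter.deprecated false

variable {n k m : ℕ} {Y : Type} [Fintype Y] [DecidableEq Y] {p q r : ℕ}

section chainA
variable {α κ Λ t u ε δ ν g : ℝ} {A : Set (Fin p → ℝ)} {G : Fin m → Clause n k}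
    {w : Fin p → List (Letter n m Y)} {T : Fin q → List (Gate n p Y)} {z : Cube n}

theorem lin_eq (A : Op n Y) : lin A = toEuclideanLin A := rfl

theorem lin_one' (v : Sp n Y) : lin (1 : Op n Y) v = v := by
  rw [lin_one]
  rfl

theorem lin_symm {A : Op n Y} (hA : A.IsHermitian) : (lin A).IsSymmetric := by
  rw [lin_eq]
  exact isHermitian_iff_isSymmetric.1 hA

/-- a Hamiltonian of a schedule -/
structure NodeZ (α κ Λ g : ℝ) (A : Set (Fin p → ℝ)) (G : Fin m → Clause n k)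
    (w : Fin p → List (Letter n m Y)) (z : Cube n) (a : Fin p → ℝ) (E : ℝ)
    (ψ : Cube n × Y → ℂ) : Prop where
  mem : a ∈ A
  coeff : ∑ j, |a j| ≤ Λ
  iso : Iso (Ham (Letter.op G z) w a) g E ψ
  low : LowE α κ (Ham (Letter.op G z) w a) (Ham Letter.av w a) E

/-- the flattened Hamiltonian has an eigenvalue near `E` -/
def TypeZ (κ δ g : ℝ) (G : Fin m → Clause n k) (w : Fin p → List (Letter n m Y))
    (z : Cube n) (a : Fin p → ℝ) (E : ℝ) : Prop :=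
  ∃ (f : ℝ) (φ : Sp n Y), ‖φ‖ = 1 ∧ lin (Ham (Letter.flt G δ z) w a) φ = (f : ℂ) • φ ∧
    |f - E| < κ * g / 8

theorem few_mono {α κ κ' E E' : ℝ} {A : Op n Y} (h : Few α κ E A) (hle : E' + κ' ≤ E + κ) :
    Few α κ' E' A := by
  obtain ⟨hA, h1⟩ := h
  refine ⟨hA, le_trans ?_ h1⟩
  exact_mod_cast card_le_card fun i hi => by
    simp only [mem_filter, mem_univ, true_and] at hi ⊢
    linarith

/-- the data of a node in the Hilbert space -/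
theorem nodeZ_hilbert {a : Fin p → ℝ} {E : ℝ} {ψ : Cube n × Y → ℂ}
    (hn : NodeZ α κ Λ g A G w z a E ψ) :
    ‖(WithLp.toLp 2 ψ : Sp n Y)‖ = 1 ∧
    lin (Ham (Letter.op G z) w a) (WithLp.toLp 2 ψ) = (E : ℂ) • (WithLp.toLp 2 ψ : Sp n Y) ∧
    ∀ v : Sp n Y, inner ℂ (WithLp.toLp 2 ψ : Sp n Y) v = 0 → g * ‖v‖ ≤
      ‖lin (Ham (Letter.op G z) w a) v - (E : ℂ) • v‖ := by
  obtain ⟨h1, h2, h3⟩ := hn.iso
  refine ⟨norm_one_of_nsq h1, ?_, ?_⟩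
  · rw [lin_eq, lin_toLp, h2]
    rfl
  · intro v hv
    have h4 := h3 (WithLp.ofLp v) (by rw [← inner_toLp']; exact hv)
    rw [nsq_eq, nsq_eq, ← mul_pow] at h4
    exact le_of_sq_le_sq h4 (norm_nonneg _)

/-- the standing assumptions -/
structure ParZ (α κ Λ t u ε δ ν : ℝ) (r : ℕ) (A : Set (Fin p → ℝ)) (G : Fin m → Clause n k)
    (w : Fin p → List (Letter n m Y)) (T : Fin q → List (Gate n p Y)) (z : Cube n) : Prop where
  hκ : 0 < κ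
  hκ1 : κ ≤ 1
  hΛ : 0 ≤ Λ
  hS : Std ε δ ν t r G
  hsm : Λ * (r * 2 ^ (r + 1)) * (ν + ε + 2 / Real.sqrt (2 ^ k)) ≤ κ / 4
  hw : ∀ i, ∀ l ∈ w i, l.Ok t r G
  hr : ∀ i, (w i).length ≤ r
  hT : ∀ j, ∀ c ∈ T j, c.Ok
  hz : GoodX α κ Λ δ (κ * (2 : ℝ) ^ (-u * n) / (1600 * (Λ + 1) * 4 ^ r)) r A G w T z

/-- the numbers -/
theorem num_etaZ {κ τ Λ : ℝ} (hκ : 0 < κ) (hτ : 0 < τ) (hΛ : 0 ≤ Λ) (r : ℕ) :
    0 ≤ κ * τ / (1600 * (Λ + 1) * 4 ^ r) ∧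
    κ * τ / (1600 * (Λ + 1) * 4 ^ r) ≤ κ * τ / 1600 ∧
    Λ * 4 ^ (r + 1) * (κ * τ / (1600 * (Λ + 1) * 4 ^ r)) ≤ κ * τ / 400 := by
  obtain ⟨e, he⟩ : ∃ e : ℝ, e = 4 ^ r := ⟨_, rfl⟩
  have h1 : (1 : ℝ) ≤ e := by rw [he]; exact one_le_pow₀ (by norm_num)
  have hL : 0 < Λ + 1 := by linarith
  have hkt : 0 < κ * τ := mul_pos hκ hτ
  have he0 : 0 < e := by linarith
  have p2 : (4 : ℝ) ^ (r + 1) = 4 * e := by rw [he, pow_succ]; ring
  rw [p2, ← he]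
  refine ⟨by positivity, ?_, ?_⟩
  · refine div_le_div_of_nonneg_left hkt.le (by norm_num) ?_
    nlinarith
  · have h5 : Λ * (4 * e) * (κ * τ / (1600 * (Λ + 1) * e)) = κ * τ / 400 * (Λ / (Λ + 1)) := by
      field_simp
      ring
    rw [h5]
    have h6 : Λ / (Λ + 1) ≤ 1 := (div_le_one hL).2 (by linarith)
    have h7 : 0 < κ * τ / 400 := by positivity
    nlinarith

theorem ham_diff_le (hP : ParZ α κ Λ t u ε δ ν r A G w T z) {a : Fin p → ℝ} (ha : ∑ i, |a i| ≤ Λ)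
    {η : ℝ} {x : Sp n Y} (hx : NR G δ w z x ≤ η) :
    ‖lin (Ham (Letter.flt G δ z) w a) x - lin (Ham (Letter.op G z) w a) x‖ ≤
      Λ * 4 ^ (r + 1) * η := by
  refine (ham_diffX hP.hS z w hP.hw hP.hr a x).trans ?_
  have hΛ := hP.hΛ
  have h0 := NR_nonneg G δ w z x
  have h1 : 0 ≤ ∑ i, |a i| := sum_nonneg fun i _ => abs_nonneg _
  gcongr

/-- the level condition for the averaged Hamiltonian -/
theorem nodeZ_few (hP : ParZ α κ Λ t u ε δ ν r A G w T z) (hu : (2 : ℝ) ^ (-u * n) ≤ 1)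
    {a : Fin p → ℝ} {E : ℝ} {ψ : Cube n × Y → ℂ} (hn : NodeZ α κ Λ g A G w z a E ψ) :
    Few α (κ / 2) E (Ham Letter.av w a) := by
  obtain ⟨τ, hτ⟩ : ∃ τ : ℝ, τ = (2 : ℝ) ^ (-u * n) := ⟨_, rfl⟩
  have hτ0 : 0 < τ := by rw [hτ]; positivity
  have hκ := hP.hκ
  obtain ⟨hη0, -, hη4⟩ := num_etaZ hκ hτ0 hP.hΛ r
  have hz := hP.hz
  rw [← hτ] at hu hz
  rcases hn.low with h1 | ⟨h1, E0, v, hv0, hv, hf⟩
  · exact few_mono h1 (by linarith)
  · -- normalise `v`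
    have hv0' : (WithLp.toLp 2 v : Sp n Y) ≠ 0 := by
      intro h
      apply hv0
      have := congrArg WithLp.ofLp h
      simpa using this
    obtain ⟨x, hx⟩ : ∃ x : Sp n Y, x = ((‖(WithLp.toLp 2 v : Sp n Y)‖⁻¹ : ℝ) : ℂ) •
      (WithLp.toLp 2 v : Sp n Y) := ⟨_, rfl⟩
    have hx1 : ‖x‖ = 1 := by
      rw [hx, norm_smul, Complex.norm_real, Real.norm_of_nonneg (by positivity)]
      exact inv_mul_cancel₀ (norm_ne_zero_iff.2 hv0')
    have hxe : lin (Ham Letter.av w a) x = (E0 : ℂ) • x := by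
      rw [hx, map_smul, lin_eq, lin_toLp, hv, smul_comm]
      rfl
    have hNR := hz.g0 a E0 x hn.mem hn.coeff hx1 hxe hf
    have h2 := ham_diff_le hP hn.coeff hNR
    have h3 := ham_av_flt (δ := δ) hP.hS z w hP.hw hP.hr a hn.coeff x
    rw [hx1, mul_one] at h3
    have h4 : ‖lin (Ham Letter.av w a) x - lin (Ham (Letter.op G z) w a) x‖ ≤ κ / 2 := by
      have h5 : lin (Ham Letter.av w a) x - lin (Ham (Letter.op G z) w a) x =
          (lin (Ham Letter.av w a) x - lin (Ham (Letter.flt G δ z) w a) x) +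
          (lin (Ham (Letter.flt G δ z) w a) x - lin (Ham (Letter.op G z) w a) x) := by abel
      rw [h5]
      refine (norm_add_le _ _).trans ?_
      have h6 := hP.hsm
      have h7 : κ * τ ≤ κ := by nlinarith
      linarith
    have h5 : E ≤ (inner ℂ x (lin (Ham (Letter.op G z) w a) x)).re := by
      have h6 := h1 (WithLp.ofLp x)
      rw [quad_toLp, nsq_eq] at h6
      change E * ‖x‖ ^ 2 ≤ (inner ℂ x (lin (Ham (Letter.op G z) w a) x)).re at h6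
      rwa [hx1, one_pow, mul_one] at h6
    have h6 : (inner ℂ x (lin (Ham (Letter.op G z) w a) x)).re = E0 -
        (inner ℂ x (lin (Ham Letter.av w a) x - lin (Ham (Letter.op G z) w a) x)).re := by
      rw [inner_sub_right, Complex.sub_re, eig_re hx1 hxe]
      ring
    have h7 : |(inner ℂ x (lin (Ham Letter.av w a) x -
        lin (Ham (Letter.op G z) w a) x)).re| ≤ κ / 2 := by
      refine (Complex.abs_re_le_norm _).trans ((norm_inner_le_norm _ _).trans ?_)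
      rw [hx1, one_mul]
      exact h4
    have h8 := (abs_le.1 h7).1
    exact few_mono hf (by linarith)

theorem nodeZ_bound (hP : ParZ α κ Λ t u ε δ ν r A G w T z) {a : Fin p → ℝ} {E : ℝ}
    {ψ : Cube n × Y → ℂ} (hn : NodeZ α κ Λ g A G w z a E ψ) : |E| ≤ Λ * 2 ^ (r + 1) := by
  obtain ⟨h1, h2, -⟩ := nodeZ_hilbert hn
  have h3 := norm_ham_op hP.hS z w hP.hw hP.hr a hn.coeff (WithLp.toLp 2 ψ)
  rw [h2, norm_smul, h1, mul_one, mul_one, Complex.norm_real] at h3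
  exact h3

/-- the flattened state near a node of type I -/
theorem typeZ_core (hP : ParZ α κ Λ t u ε δ ν r A G w T z) (hg : (2 : ℝ) ^ (-u * n) < g)
    (hg1 : g ≤ 1) {a : Fin p → ℝ} {E : ℝ} {ψ : Cube n × Y → ℂ}
    (hn : NodeZ α κ Λ g A G w z a E ψ) (hI : TypeZ κ δ g G w z a E) :
    ∃ (f : ℝ) (φ χ : Sp n Y) (c : ℂ), ‖φ‖ = 1 ∧
      lin (Ham (Letter.flt G δ z) w a) φ = (f : ℂ) • φ ∧ |f - E| ≤ κ / 8 ∧
      φ = c • (WithLp.toLp 2 ψ : Sp n Y) + χ ∧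
      g * ‖χ‖ ≤ κ * (2 : ℝ) ^ (-u * n) / 300 ∧ 99 / 100 ≤ ‖c‖ ∧
      ∀ o : Option (Fin q), NX G δ r w z (Tw T o) φ ≤
        κ * (2 : ℝ) ^ (-u * n) / (1600 * (Λ + 1) * 4 ^ r) := by
  have hfew := nodeZ_few hP (hg.le.trans hg1) hn
  obtain ⟨τ, hτ⟩ : ∃ τ : ℝ, τ = (2 : ℝ) ^ (-u * n) := ⟨_, rfl⟩
  have hτ0 : 0 < τ := by rw [hτ]; positivity
  have hκ := hP.hκ
  have hκ1 := hP.hκ1
  obtain ⟨hη0, -, hη4⟩ := num_etaZ hκ hτ0 hP.hΛ r
  have hz := hP.hz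
  rw [← hτ] at hg hz ⊢
  have hg0 : 0 < g := hτ0.trans hg
  obtain ⟨f, φ, hφ, hf, hfE⟩ := hI
  have hκg : κ * g ≤ κ := by nlinarith
  have hfE' : |f - E| ≤ κ / 8 := by linarith
  have hNX := hz.g1 a E f φ hn.mem hn.coeff hφ hf hfew hfE'
  have hNR : NR G δ w z φ ≤ κ * τ / (1600 * (Λ + 1) * 4 ^ r) := by
    have h1 := hNX none
    have h2 := ER_nonneg G δ r w z (Tw T none) φ
    have h3 := NR_nonneg G δ w z (lin (circ (Letter.flt G δ z) w z (Tw T none)) φ)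
    unfold NX at h1
    linarith
  have hdiff := ham_diff_le hP hn.coeff hNR
  obtain ⟨hψ1, hψ2, hψ3⟩ := nodeZ_hilbert hn
  obtain ⟨c, χ, h1, h2, h3⟩ := near_eig (H := lin (Ham (Letter.op G z) w a))
    (N := lin (Ham (Letter.flt G δ z) w a) - lin (Ham (Letter.op G z) w a))
    (lin_symm (ham_herm _ w a)) hg0 hψ1 hψ2 hψ3 (f := f) (φ := φ)
    (ν := Λ * 4 ^ (r + 1) * (κ * τ / (1600 * (Λ + 1) * 4 ^ r)))
    (by rw [LinearMap.sub_apply, add_sub_cancel]; exact hf)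
    (by
      have : κ * g ≤ g := by nlinarith
      linarith)
    (by rw [LinearMap.sub_apply]; exact hdiff)
  have hχ : g * ‖χ‖ ≤ κ * τ / 300 := by linarith
  refine ⟨f, φ, χ, c, hφ, hf, hfE', h1, hχ, ?_, hNX⟩
  have h4 := two_pyth h2 c
  rw [← h1, hφ, hψ1] at h4
  have h5 : ‖χ‖ ≤ 1 / 100 := by
    have h6 : κ * τ ≤ g := by nlinarith
    have h7 : g * ‖χ‖ ≤ g * (1 / 100) := by linarith
    exact le_of_mul_le_mul_left h7 hg0
  have h6 : ‖χ‖ ^ 2 ≤ (1 / 100) ^ 2 := pow_le_pow_left₀ (norm_nonneg _) h5 2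
  refine le_of_sq_le_sq ?_ (norm_nonneg _)
  nlinarith

theorem Tw_ok (hP : ParZ α κ Λ t u ε δ ν r A G w T z) (o : Option (Fin q)) :
    ∀ c ∈ Tw T o, c.Ok := by
  cases o with
  | none => intro c hc; exact absurd hc (by simp [Tw])
  | some j => exact hP.hT j

theorem typeZ_out (hP : ParZ α κ Λ t u ε δ ν r A G w T z) (hg : (2 : ℝ) ^ (-u * n) < g)
    (hg1 : g ≤ 1) {a : Fin p → ℝ} {E : ℝ} {ψ : Cube n × Y → ℂ}
    (hn : NodeZ α κ Λ g A G w z a E ψ) (hI : TypeZ κ δ g G w z a E) (o : Option (Fin q)) :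
    ‖nearP (hball δ z) (lin (circ (Letter.op G z) w z (Tw T o)) (WithLp.toLp 2 ψ : Sp n Y))‖ ≤
      (2 : ℝ) ^ (-u * n) / g := by
  obtain ⟨f, φ, χ, c, hφ, hf, hf2, h1, hχ, hc, hNX⟩ := typeZ_core hP hg hg1 hn hI
  obtain ⟨τ, hτ⟩ : ∃ τ : ℝ, τ = (2 : ℝ) ^ (-u * n) := ⟨_, rfl⟩
  have hτ0 : 0 < τ := by rw [hτ]; positivity
  have hκ := hP.hκ
  have hκ1 := hP.hκ1
  obtain ⟨hη0, hη1, -⟩ := num_etaZ hκ hτ0 hP.hΛ r
  rw [← hτ] at hg hχ hNX ⊢
  have hg0 : 0 < g := hτ0.trans hg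
  obtain ⟨Xo, hXo⟩ : ∃ X, X = lin (circ (Letter.op G z) w z (Tw T o)) := ⟨_, rfl⟩
  obtain ⟨Xf, hXf⟩ : ∃ X, X = lin (circ (Letter.flt G δ z) w z (Tw T o)) := ⟨_, rfl⟩
  have hcd := circ_diff hP.hS z w hP.hw hP.hr (Tw T o) (Tw_ok hP o) φ
  have hnχ := norm_circ (Letter.op G z) w z (Tw T o) (Tw_ok hP o) χ
  have hnear := near_le_NR G δ w z (lin (circ (Letter.flt G δ z) w z (Tw T o)) φ)
  have hNXo := hNX o
  unfold NX at hNXo
  have hNR0 := NR_nonneg G δ w z φ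
  rw [← hXo] at hcd hnχ ⊢
  rw [← hXf] at hcd hnear hNXo
  have h2 : c • nearP (hball δ z) (Xo (WithLp.toLp 2 ψ : Sp n Y)) =
      nearP (hball δ z) (Xf φ) - nearP (hball δ z) (Xf φ - Xo φ) -
        nearP (hball δ z) (Xo χ) := by
    rw [← map_sub, sub_sub_cancel, ← map_sub]
    nth_rewrite 1 [h1]
    rw [map_add, map_smul, add_sub_cancel_right, map_smul]
  have h3 : ‖c‖ * ‖nearP (hball δ z) (Xo (WithLp.toLp 2 ψ : Sp n Y))‖ ≤
      κ * τ / 1600 + ‖χ‖ := by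
    rw [← norm_smul, h2]
    refine (norm_sub_le _ _).trans (add_le_add ((norm_sub_le _ _).trans ?_)
      ((norm_nearP_le _ _).trans hnχ))
    have h5 := (norm_nearP_le (hball δ z) (Xf φ - Xo φ)).trans hcd
    linarith
  rw [le_div_iff₀ hg0]
  have h4 : g * (‖c‖ * ‖nearP (hball δ z) (Xo (WithLp.toLp 2 ψ : Sp n Y))‖) ≤
      g * (κ * τ / 1600 + ‖χ‖) := mul_le_mul_of_nonneg_left h3 hg0.le
  have h5 : 99 / 100 * (g * ‖nearP (hball δ z) (Xo (WithLp.toLp 2 ψ : Sp n Y))‖) ≤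
      ‖c‖ * (g * ‖nearP (hball δ z) (Xo (WithLp.toLp 2 ψ : Sp n Y))‖) :=
    mul_le_mul_of_nonneg_right hc (by positivity)
  have h6 : g * (κ * τ / 1600) ≤ κ * τ / 1600 := by
    have : 0 ≤ κ * τ / 1600 := by positivity
    nlinarith
  have h7 : κ * τ ≤ τ := by nlinarith
  nlinarith

theorem typeZ_start (hκ : 0 < κ) (hg : 0 < g) {a : Fin p → ℝ} {E : ℝ}
    {ψ : Cube n × Y → ℂ} (hn : NodeZ α κ Λ g A G w z a E ψ)
    (ha : ∀ i, a i ≠ 0 → ∀ l ∈ w i, l.Free) : TypeZ κ δ g G w z a E := by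
  obtain ⟨hψ1, hψ2, -⟩ := nodeZ_hilbert hn
  refine ⟨E, WithLp.toLp 2 ψ, hψ1, ?_, ?_⟩
  · rw [ham_start z w a ha, hψ2]
  · rw [sub_self, abs_zero]
    positivity

end chainA

end Pool.Agent.H73.AZ
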