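import Pool.Agent.H73.AZ.Flat
import Pool.Agent.H73.AW.Wd
import Pool.Agent.H86.AD.ChainA

/-! Clause terms of natural strength, and oracles. -/

namespace Pool.Agent.H73.AZ

open Finset Matrix Pool.Agent.H73.QA Pool.Agent.H73.AD

set_option linter.unusedSectionVars false

variable {n k m p q : ℕ} {Y : Type} [Fintype Y] [DecidableEq Y] {r : ℕ}

/-- clause terms of a letter `pen` -/
def PenOk (r : ℕ) (G : Fin m → Clause n k) (h : Fin m → Op n Y) : Prop :=
  Bdd (∑ j, h j) 1 ∧ (∀ j, Bdd (h j) (2 ^ k / (2 * m * Real.sqrt ((k + 1) ^ r)))) ∧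
    ∀ j x y, h j x y ≠ 0 → tl x.1 (G j) ≤ r ∧ tl y.1 (G j) ≤ r

theorem pen_lin_add (A B : Op n Y) : lin (A + B) = lin A + lin B := by
  unfold lin
  exact map_add _ _ _

theorem pen_lin_sub (A B : Op n Y) : lin (A - B) = lin A - lin B := by
  unfold lin
  exact map_sub _ _ _

theorem pen_lin_mul (A B : Op n Y) : lin (A * B) = lin A ∘ₗ lin B := by
  unfold lin
  exact toLpLin_mul 2 2 2 A B

theorem pen_lin_sum {ι : Type} (s : Finset ι) (A : ι → Op n Y) :
    lin (∑ i ∈ s, A i) = ∑ i ∈ s, lin (A i) := by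
  unfold lin
  exact map_sum _ _ _

theorem pen_lin_apply (A : Op n Y) (u : Sp n Y) (x : Cube n × Y) :
    lin A u x = (A *ᵥ u.ofLp) x := by
  unfold lin
  rw [toLpLin_apply]

theorem pen_lin_bdd {A : Op n Y} {a : ℝ} (ha : 0 ≤ a) (hA : Bdd A a) (u : Sp n Y) :
    ‖lin A u‖ ≤ a * ‖u‖ := norm_of_bdd ha hA u

/-- the part of `u` on the assignments with at most `r` true literals in clause `j` -/
noncomputable def qp (G : Fin m → Clause n k) (r : ℕ) (j : Fin m) : Sp n Y →ₗ[ℂ] Sp n Y :=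
  dg fun x => if tl x (G j) ≤ r then 1 else 0

theorem lin_qp {G : Fin m → Clause n k} {h : Fin m → Op n Y} (hh : PenOk r G h) (j : Fin m)
    (u : Sp n Y) : lin (h j) (qp G r j u) = lin (h j) u := by
  ext x
  rw [pen_lin_apply, pen_lin_apply]
  unfold Matrix.mulVec dotProduct
  refine sum_congr rfl fun y _ => ?_
  change h j x y * qp G r j u y = h j x y * u y
  by_cases hy : h j x y = 0
  · rw [hy, zero_mul, zero_mul]
  · have h1 := (hh.2.2 j x y hy).2
    have h2 : qp G r j u y = u y := by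
      unfold qp
      rw [dg_apply, if_pos h1, one_mul]
    rw [h2]

theorem lin_pen_supp {G : Fin m → Clause n k} {h : Fin m → Op n Y} (hh : PenOk r G h)
    (j : Fin m) (u : Sp n Y) (x : Cube n × Y) (hx : lin (h j) u x ≠ 0) :
    tl x.1 (G j) ≤ r := by
  by_contra h1
  apply hx
  rw [pen_lin_apply]
  unfold Matrix.mulVec dotProduct
  refine sum_eq_zero fun y _ => ?_
  change h j x y * u y = 0
  by_cases hy : h j x y = 0
  · rw [hy, zero_mul]
  · exact absurd (hh.2.2 j x y hy).1 h1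

/-- the sum of the squares of the parts -/
theorem sum_qp (G : Fin m → Clause n k) (r : ℕ) (J : Finset (Fin m)) (u : Sp n Y) {c : ℝ}
    (hc : ∀ x : Cube n × Y, u x ≠ 0 →
      ((J.filter fun j => tl x.1 (G j) ≤ r).card : ℝ) ≤ c) :
    ∑ j ∈ J, ‖qp G r j u‖ ^ 2 ≤ c * ‖u‖ ^ 2 := by
  have h1 : ∀ j, ‖qp G r j u‖ ^ 2 = ∑ x : Cube n × Y, if tl x.1 (G j) ≤ r then ‖u x‖ ^ 2 else 0 := by
    intro j
    rw [EuclideanSpace.norm_sq_eq]
    refine sum_congr rfl fun x _ => ?_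
    unfold qp
    rw [dg_apply]
    by_cases h : tl x.1 (G j) ≤ r
    · rw [if_pos h, if_pos h, one_mul]
    · rw [if_neg h, if_neg h, zero_mul, norm_zero]
      norm_num
  simp only [h1]
  rw [sum_comm, EuclideanSpace.norm_sq_eq, mul_sum]
  refine sum_le_sum fun x _ => ?_
  rw [← sum_filter, sum_const, nsmul_eq_mul]
  by_cases hx : u x = 0
  · rw [hx, norm_zero]
    norm_num
  · exact mul_le_mul_of_nonneg_right (hc x hx) (sq_nonneg _)

/-- sums of vectors with sparse overlaps -/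
theorem norm_sum_sparse (J : Finset (Fin m)) (a : Fin m → Sp n Y) {c : ℝ}
    (hc : ∀ x : Cube n × Y, ((J.filter fun j => a j x ≠ 0).card : ℝ) ≤ c) :
    ‖∑ j ∈ J, a j‖ ^ 2 ≤ c * ∑ j ∈ J, ‖a j‖ ^ 2 := by
  classical
  have h1 : ∀ x : Cube n × Y, (∑ j ∈ J, a j) x = ∑ j ∈ J, a j x := by
    intro x
    simp
  rw [EuclideanSpace.norm_sq_eq]
  simp only [h1, EuclideanSpace.norm_sq_eq]
  rw [sum_comm, mul_sum]
  refine sum_le_sum fun x _ => ?_
  have h2 : ∑ j ∈ J, a j x = ∑ j ∈ J.filter (fun j => a j x ≠ 0), a j x :=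
    (sum_filter_ne_zero J).symm
  have h3 : ∑ j ∈ J.filter (fun j => a j x ≠ 0), ‖a j x‖ ^ 2 ≤ ∑ j ∈ J, ‖a j x‖ ^ 2 :=
    sum_le_sum_of_subset_of_nonneg (filter_subset _ _) fun j _ _ => sq_nonneg _
  calc ‖∑ j ∈ J, a j x‖ ^ 2 ≤ (∑ j ∈ J.filter (fun j => a j x ≠ 0), ‖a j x‖) ^ 2 := by
        rw [h2]
        exact pow_le_pow_left₀ (norm_nonneg _) (norm_sum_le _ _) 2
    _ ≤ ((J.filter fun j => a j x ≠ 0).card : ℝ) *
        ∑ j ∈ J.filter (fun j => a j x ≠ 0), ‖a j x‖ ^ 2 := sq_sum_le_card_mul_sum_sq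
    _ ≤ c * ∑ j ∈ J, ‖a j x‖ ^ 2 := by
        refine mul_le_mul (hc x) h3 (sum_nonneg fun _ _ => sq_nonneg _) ?_
        exact (Nat.cast_nonneg _).trans (hc x)

theorem lin_far (δ : ℝ) (z : Cube n) (u : Sp n Y) :
    lin (far δ z) u = u - nearP (hball δ z) u := by
  ext x
  rw [pen_lin_apply]
  unfold far
  rw [mulVec_diagonal]
  unfold nearP
  rw [PiLp.sub_apply, dg_apply]
  by_cases hx : x.1 ∈ hball δ z
  · rw [if_pos hx, if_pos hx]
    ring
  · rw [if_neg hx, if_neg hx]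
    ring

theorem lin_far_apply (δ : ℝ) (z : Cube n) (u : Sp n Y) (x : Cube n × Y) :
    lin (far δ z) u x = if x.1 ∈ hball δ z then 0 else u x := by
  rw [pen_lin_apply]
  unfold far
  rw [mulVec_diagonal]
  by_cases hx : x.1 ∈ hball δ z
  · rw [if_pos hx, if_pos hx, zero_mul]
  · rw [if_neg hx, if_neg hx, one_mul]

theorem norm_lin_far (δ : ℝ) (z : Cube n) (u : Sp n Y) : ‖lin (far δ z) u‖ ≤ ‖u‖ := by
  have h : ‖lin (far δ z) u‖ ^ 2 ≤ ‖u‖ ^ 2 := by
    rw [EuclideanSpace.norm_sq_eq, EuclideanSpace.norm_sq_eq]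
    refine sum_le_sum fun x _ => ?_
    rw [lin_far_apply]
    by_cases hx : x.1 ∈ hball δ z
    · rw [if_pos hx, norm_zero, zero_pow two_ne_zero]
      exact sq_nonneg _
    · rw [if_neg hx]
  exact le_of_sq_le_sq h (norm_nonneg _)

section pen
variable {G : Fin m → Clause n k} {ε δ ν β : ℝ} {h : Fin m → Op n Y}

/-- the square root is at least one -/
theorem one_le_sk (k r : ℕ) : (1 : ℝ) ≤ Real.sqrt ((k + 1) ^ r) := by
  refine Real.one_le_sqrt.2 (one_le_pow₀ ?_)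
  have : (0 : ℝ) ≤ k := Nat.cast_nonneg _
  linarith

theorem bk_le (hm : 0 < m) (k r : ℕ) :
    (2 : ℝ) ^ k / (2 * m * Real.sqrt ((k + 1) ^ r)) ≤ 2 ^ k / (2 * m) := by
  have hm' : (0 : ℝ) < m := by exact_mod_cast hm
  have h1 := one_le_sk k r
  refine div_le_div_of_nonneg_left (by positivity) (by positivity) ?_
  nlinarith

/-- at most (1+ε) m/2^k ≤ 2 m/2^k terms of norm ≤ 2^k/(2m) -/
theorem norm_vio (hm : 0 < m) (hε : ε ≤ 1) (hG : Typ ε δ ν G) (hh : PenOk r G h) (z : Cube n)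
    (u : Sp n Y) : ‖lin (vio G h z) u‖ ≤ ‖u‖ := by
  have hm' : (0 : ℝ) < m := by exact_mod_cast hm
  have hb0 : (0 : ℝ) ≤ 2 ^ k / (2 * m * Real.sqrt ((k + 1) ^ r)) := by positivity
  unfold vio
  rw [pen_lin_sum, LinearMap.sum_apply]
  have h1 : ∀ j ∈ univ.filter (fun j => Violates z (G j)), ‖lin (h j) u‖ ≤
      2 ^ k / (2 * m) * ‖u‖ := fun j _ =>
    (pen_lin_bdd hb0 (hh.2.1 j) u).trans
      (mul_le_mul_of_nonneg_right (bk_le hm k r) (norm_nonneg _))
  refine (norm_sum_le _ _).trans ((sum_le_sum h1).trans ?_)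
  rw [sum_const, nsmul_eq_mul]
  have h2 : ((univ.filter (fun j => Violates z (G j))).card : ℝ) ≤ 2 * (m / 2 ^ k) :=
    AW.Typ.viol_le hε hG z
  calc _ ≤ 2 * (m / 2 ^ k) * (2 ^ k / (2 * m) * ‖u‖) :=
        mul_le_mul_of_nonneg_right h2 (by positivity)
    _ = ‖u‖ := by field_simp

/-- the violated clause terms far from `z` -/
theorem norm_far_vio (hm : 0 < m) (hG : TypR r δ ν G) (hν : 0 ≤ ν) (hh : PenOk r G h) (z : Cube n)
    (u : Sp n Y) : ‖lin (far δ z * vio G h z * far δ z) u‖ ≤ ν * ‖u‖ := by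
  have hm' : (0 : ℝ) < m := by exact_mod_cast hm
  have hb0 : (0 : ℝ) ≤ 2 ^ k / (2 * m * Real.sqrt ((k + 1) ^ r)) := by positivity
  rw [pen_lin_mul, pen_lin_mul]
  simp only [LinearMap.comp_apply]
  obtain ⟨w, hw⟩ : ∃ w, w = lin (far δ z) u := ⟨_, rfl⟩
  rw [← hw]
  have hw1 : ‖w‖ ≤ ‖u‖ := by rw [hw]; exact norm_lin_far δ z u
  have hwx : ∀ x : Cube n × Y, w x ≠ 0 → x.1 ∉ hball δ z := by
    intro x hx hx2
    apply hx
    rw [hw, lin_far_apply, if_pos hx2]
  obtain ⟨J, hJ⟩ : ∃ J : Finset (Fin m), J = univ.filter fun j => Violates z (G j) := ⟨_, rfl⟩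
  have hcard : ∀ x : Cube n, x ∉ hball δ z →
      ((J.filter fun j => tl x (G j) ≤ r).card : ℝ) ≤ ν * (m / 2 ^ k) := by
    intro x hx
    have h1 := hG.t4 z x hx
    rw [hJ, filter_filter]
    exact h1
  have hsum : lin (far δ z) (lin (vio G h z) w) = ∑ j ∈ J, lin (far δ z) (lin (h j) w) := by
    unfold vio
    rw [pen_lin_sum, LinearMap.sum_apply, map_sum, hJ]
  have h1 := norm_sum_sparse J (fun j => lin (far δ z) (lin (h j) w)) (c := ν * (m / 2 ^ k))
    (by
      intro x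
      by_cases hx : x.1 ∈ hball δ z
      · have h2 : (J.filter fun j => lin (far δ z) (lin (h j) w) x ≠ 0) = ∅ := by
          refine filter_eq_empty_iff.2 fun j _ h3 => h3 ?_
          rw [lin_far_apply, if_pos hx]
        rw [h2, card_empty, Nat.cast_zero]
        positivity
      · refine le_trans ?_ (hcard x.1 hx)
        exact_mod_cast card_le_card fun j hj => by
          rw [mem_filter] at hj ⊢
          refine ⟨hj.1, ?_⟩
          have h3 := hj.2
          rw [lin_far_apply, if_neg hx] at h3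
          exact lin_pen_supp hh j w x fun h => h3 (by simpa using h))
  have h2 : ∑ j ∈ J, ‖lin (far δ z) (lin (h j) w)‖ ^ 2 ≤
      (2 ^ k / (2 * m * Real.sqrt ((k + 1) ^ r))) ^ 2 * (ν * (m / 2 ^ k) * ‖w‖ ^ 2) := by
    have h3 := sum_qp G r J w (c := ν * (m / 2 ^ k)) fun x hx => hcard x.1 (hwx x hx)
    calc ∑ j ∈ J, ‖lin (far δ z) (lin (h j) w)‖ ^ 2 ≤
        ∑ j ∈ J, (2 ^ k / (2 * m * Real.sqrt ((k + 1) ^ r))) ^ 2 * ‖qp G r j w‖ ^ 2 := by
          refine sum_le_sum fun j _ => ?_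
          rw [← mul_pow]
          refine pow_le_pow_left₀ (norm_nonneg _) ((norm_lin_far δ z _).trans ?_) 2
          rw [← lin_qp hh j w]
          exact pen_lin_bdd hb0 (hh.2.1 j) _
      _ = (2 ^ k / (2 * m * Real.sqrt ((k + 1) ^ r))) ^ 2 * ∑ j ∈ J, ‖qp G r j w‖ ^ 2 := by
          rw [mul_sum]
      _ ≤ _ := mul_le_mul_of_nonneg_left h3 (sq_nonneg _)
  rw [hsum]
  have h4 : ‖∑ j ∈ J, lin (far δ z) (lin (h j) w)‖ ^ 2 ≤ (ν * ‖u‖) ^ 2 := by
    have hb1 := bk_le hm k r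
    have hw2 : ‖w‖ ^ 2 ≤ ‖u‖ ^ 2 := pow_le_pow_left₀ (norm_nonneg _) hw1 2
    calc ‖∑ j ∈ J, lin (far δ z) (lin (h j) w)‖ ^ 2 ≤
        ν * (m / 2 ^ k) * ((2 ^ k / (2 * m * Real.sqrt ((k + 1) ^ r))) ^ 2 *
          (ν * (m / 2 ^ k) * ‖w‖ ^ 2)) :=
          h1.trans (mul_le_mul_of_nonneg_left h2 (by positivity))
      _ ≤ ν * (m / 2 ^ k) * ((2 ^ k / (2 * m)) ^ 2 * (ν * (m / 2 ^ k) * ‖u‖ ^ 2)) := by
          gcongr
      _ = (ν * ‖u‖) ^ 2 / 4 := by field_simp; ring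
      _ ≤ (ν * ‖u‖) ^ 2 := by
          have : 0 ≤ (ν * ‖u‖) ^ 2 := sq_nonneg _
          linarith
  exact le_of_sq_le_sq h4 (by positivity)

/-- the violated clause terms preserve good families -/
theorem goodOp_vio {Z : Type} [Fintype Z] (hm : 0 < m) (hε : ε ≤ 1) (hG : Typ ε δ ν G)
    (hR : TypR r δ ν G) (_hβ : 0 ≤ β) (ζ : Z → Cube n) (hh : PenOk r G h) :
    GoodOp β 1 (fun z => lin (vio G h (ζ z))) := by
  have hm' : (0 : ℝ) < m := by exact_mod_cast hm
  have h2k : (0 : ℝ) < 2 ^ k := by positivity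
  have hb0 : (0 : ℝ) ≤ 2 ^ k / (2 * m * Real.sqrt ((k + 1) ^ r)) := by positivity
  have hk1 : (0 : ℝ) < ((k : ℝ) + 1) ^ r := by positivity
  have h3 := goodOp_ops (β := β) (Z := Z) (J := Fin m) (Φ := Real.sqrt (2 * (m / 2 ^ k)))
    (Θ := Real.sqrt (2 ^ k / (2 * m))) (Real.sqrt_nonneg _) (Real.sqrt_nonneg _)
    (fun z j => if Violates (ζ z) (G j) then (1 : ℂ) else 0) (fun j => lin (h j))
    (by
      intro z
      rw [Real.sq_sqrt (by positivity)]
      have h4 : ∀ j, ‖(if Violates (ζ z) (G j) then (1 : ℂ) else 0)‖ ^ 2 =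
          if Violates (ζ z) (G j) then (1 : ℝ) else 0 := by
        intro j
        split_ifs <;> simp
      simp only [h4]
      rw [sum_boole]
      exact AW.Typ.viol_le hε hG (ζ z))
    (by
      intro u
      rw [Real.sq_sqrt (by positivity)]
      have h4 := sum_qp G r univ u (c := 2 * ((k : ℝ) + 1) ^ r * (m / 2 ^ k)) fun x _ => hR.t3 x.1
      calc ∑ j, ‖lin (h j) u‖ ^ 2 ≤
          ∑ j, (2 ^ k / (2 * m * Real.sqrt ((k + 1) ^ r))) ^ 2 * ‖qp G r j u‖ ^ 2 := by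
            refine sum_le_sum fun j _ => ?_
            rw [← mul_pow]
            refine pow_le_pow_left₀ (norm_nonneg _) ?_ 2
            rw [← lin_qp hh j u]
            exact pen_lin_bdd hb0 (hh.2.1 j) _
        _ = (2 ^ k / (2 * m * Real.sqrt ((k + 1) ^ r))) ^ 2 * ∑ j, ‖qp G r j u‖ ^ 2 := by
            rw [mul_sum]
        _ ≤ (2 ^ k / (2 * m * Real.sqrt ((k + 1) ^ r))) ^ 2 *
            (2 * ((k : ℝ) + 1) ^ r * (m / 2 ^ k) * ‖u‖ ^ 2) :=
            mul_le_mul_of_nonneg_left h4 (sq_nonneg _)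
        _ = 2 ^ k / (2 * m) * ‖u‖ ^ 2 := by
            rw [div_pow, mul_pow, mul_pow, Real.sq_sqrt hk1.le]
            field_simp
            try ring)
  have h5 : Real.sqrt (2 * (m / 2 ^ k)) * Real.sqrt (2 ^ k / (2 * m)) = 1 := by
    rw [← Real.sqrt_mul (by positivity)]
    have : 2 * ((m : ℝ) / 2 ^ k) * (2 ^ k / (2 * m)) = 1 := by field_simp
    rw [this, Real.sqrt_one]
  rw [h5] at h3
  have h6 : (fun z => lin (vio G h (ζ z))) =
      fun z => ∑ j, (if Violates (ζ z) (G j) then (1 : ℂ) else 0) • lin (h j) := by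
    funext z
    unfold vio
    rw [pen_lin_sum, sum_filter]
    refine sum_congr rfl fun j _ => ?_
    split_ifs <;> simp
  rw [h6]
  exact h3

/-- the flattened letter preserves good families -/
theorem goodOp_pen {Z : Type} [Fintype Z] (hm : 0 < m) (hε : ε ≤ 1) (hG : Typ ε δ ν G)
    (hR : TypR r δ ν G) (hβ : 0 ≤ β) (ζ : Z → Cube n)
    (hB : ∀ x, ((univ.filter fun z => x ∈ hball δ (ζ z)).card : ℝ) ≤ β ^ 2) (hh : PenOk r G h) :
    GoodOp β 16 (fun z => lin (Letter.flt G δ (ζ z) (.pen h))) := by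
  have h1 : GoodOp β 1 fun _ : Z => lin (∑ j, h j) :=
    goodOp_fixed zero_le_one _ fun u => pen_lin_bdd zero_le_one hh.1 u
  have h2 : GoodOp β 3 fun z : Z => lin (far δ (ζ z) : Op n Y) := by
    have h3 : GoodOp β 1 fun _ : Z => (LinearMap.id : Sp n Y →ₗ[ℂ] Sp n Y) :=
      goodOp_fixed zero_le_one _ fun u => by simp
    have h4 : GoodOp β (2 * 1) fun z : Z => (nearP (hball δ (ζ z)) : Sp n Y →ₗ[ℂ] Sp n Y) :=
      goodOp_near hβ hB zero_le_one _ fun z u => by rw [one_mul]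
    have h5 := h3.add (h4.smul zero_le_one (fun _ => (-1 : ℂ)) (fun _ => by simp))
    have h6 : (fun z : Z => lin (far δ (ζ z) : Op n Y)) = fun z => (LinearMap.id :
        Sp n Y →ₗ[ℂ] Sp n Y) + (-1 : ℂ) • nearP (hball δ (ζ z)) := by
      funext z
      ext u : 1
      rw [lin_far, LinearMap.add_apply, LinearMap.smul_apply, neg_one_smul, LinearMap.id_apply,
        sub_eq_add_neg]
    rw [h6]
    exact h5.mono hβ (by norm_num)
  have h3 := goodOp_vio hm hε hG hR hβ ζ hh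
  have h4 := (h2.comp h3).comp h2
  have h5 := h1.add (h4.smul zero_le_one (fun _ => (-1 : ℂ)) (fun _ => by simp))
  have h6 : (fun z => lin (Letter.flt G δ (ζ z) (.pen h))) = fun z : Z => lin (∑ j, h j) +
      (-1 : ℂ) • (lin (far δ (ζ z)) ∘ₗ (lin (vio G h (ζ z)) ∘ₗ lin (far δ (ζ z)))) := by
    funext z
    change lin (∑ j, h j - far δ (ζ z) * vio G h (ζ z) * far δ (ζ z)) = _
    rw [pen_lin_sub, pen_lin_mul, pen_lin_mul, neg_one_smul, sub_eq_add_neg]
    rfl
  rw [h6]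
  exact h5.mono hβ (by norm_num)

theorem pen_op_eq (G : Fin m → Clause n k) (z : Cube n) (h : Fin m → Op n Y) :
    Letter.op G z (.pen h) = ∑ j, h j - vio G h z := by
  rw [eq_sub_iff_add_eq]
  change ∑ j ∈ univ.filter (fun j => ¬ Violates z (G j)), h j + vio G h z = _
  unfold vio
  rw [add_comm]
  exact sum_filter_add_sum_filter_not univ (fun j => Violates z (G j)) h

theorem pen_diff (hm : 0 < m) (hε : ε ≤ 1) (hG : Typ ε δ ν G) (hh : PenOk r G h) (z : Cube n)
    (v : Sp n Y) :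
    ‖lin (Letter.flt G δ z (.pen h)) v - lin (Letter.op G z (.pen h)) v‖ ≤
      2 * ‖nearP (hball δ z) v‖ + ‖nearP (hball δ z) (lin (vio G h z) v)‖ := by
  have h1 : lin (Letter.flt G δ z (.pen h)) v - lin (Letter.op G z (.pen h)) v =
      nearP (hball δ z) (lin (vio G h z) v) +
        lin (far δ z) (lin (vio G h z) (nearP (hball δ z) v)) := by
    rw [pen_op_eq]
    change lin (∑ j, h j - far δ z * vio G h z * far δ z) v - _ = _
    rw [pen_lin_sub, pen_lin_sub, pen_lin_mul, pen_lin_mul]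
    simp only [LinearMap.sub_apply, LinearMap.comp_apply]
    have h2 : lin (far δ z) v = v - nearP (hball δ z) v := lin_far δ z v
    rw [h2, map_sub, map_sub]
    have h3 : lin (far δ z) (lin (vio G h z) v) =
        lin (vio G h z) v - nearP (hball δ z) (lin (vio G h z) v) := lin_far δ z _
    rw [h3]
    abel
  rw [h1]
  refine (norm_add_le _ _).trans ?_
  have h2 := norm_lin_far δ z (lin (vio G h z) (nearP (hball δ z) v))
  have h3 := norm_vio hm hε hG hh z (nearP (hball δ z) v)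
  have h4 := norm_nonneg (nearP (hball δ z) v)
  linarith

theorem penOk_adj (hh : PenOk r G h) : PenOk r G fun j => (h j)ᴴ := by
  refine ⟨?_, fun j => AW.bdd_adj (by positivity) (hh.2.1 j), fun j x y hxy => ?_⟩
  · have h1 := AW.bdd_adj zero_le_one hh.1
    rw [conjTranspose_sum] at h1
    exact h1
  · have h1 : h j y x ≠ 0 := by
      intro h2
      apply hxy
      change star (h j y x) = 0
      rw [h2, star_zero]
    exact (hh.2.2 j y x h1).symm

/-- near-solutions lie in the ball -/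
theorem near_sol {t : ℝ} (hm : 0 < m) (hG : Typ ε δ ν G) (ht : ε + ν < t) (z x : Cube n)
    (hx : (pviol G z x : ℝ) ≤ (1 - t) * m / 2 ^ k) : x ∈ hball δ z := by
  by_contra hxB
  have hm' : (0 : ℝ) < m := by exact_mod_cast hm
  have h4 := (viol_bounds hm hG x).1
  have h5 := wn_bound (z := z) hm hG hxB
  have h6 := pviol_eq G z x
  have h7 : (0 : ℝ) < 2 ^ k / m := by positivity
  have h8 : 2 ^ k / m * (pviol G z x : ℝ) ≤ 1 - t := by
    calc 2 ^ k / m * (pviol G z x : ℝ) ≤ 2 ^ k / m * ((1 - t) * m / 2 ^ k) :=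
          mul_le_mul_of_nonneg_left hx h7.le
      _ = 1 - t := by field_simp
  rw [h6, mul_sub] at h8
  linarith

/-- the oracle acts only near `z` -/
theorem orc_diff {t : ℝ} (hm : 0 < m) (hG : Typ ε δ ν G) (ht : ε + ν < t) {D : Op n Y}
    {X : Cube n → Op n Y} (h : (Letter.orc D X : Letter n m Y).Ok t r G) (z : Cube n) (v : Sp n Y) :
    ‖lin D v - lin (X z) v‖ ≤ 2 * ‖nearP (hball δ z) v‖ := by
  have h1 : lin D v - lin (X z) v =
      lin D (nearP (hball δ z) v) - lin (X z) (nearP (hball δ z) v) := by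
    ext x
    rw [PiLp.sub_apply, PiLp.sub_apply, pen_lin_apply, pen_lin_apply, pen_lin_apply,
      pen_lin_apply]
    unfold Matrix.mulVec dotProduct
    rw [← sum_sub_distrib, ← sum_sub_distrib]
    refine sum_congr rfl fun y _ => ?_
    change D x y * v y - X z x y * v y = D x y * nearP (hball δ z) v y -
      X z x y * nearP (hball δ z) v y
    rw [← sub_mul, ← sub_mul]
    by_cases hy : X z x y = D x y
    · rw [hy, sub_self, zero_mul, zero_mul]
    · have h2 := near_sol hm hG ht z y.1 ((h.2 z).2 x y hy).2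
      have h3 : nearP (hball δ z) v y = v y := by
        unfold nearP
        rw [dg_apply, if_pos h2, one_mul]
      congr 1
      exact h3.symm
  rw [h1]
  have h2 := pen_lin_bdd zero_le_one h.1 (nearP (hball δ z) v)
  have h3 := pen_lin_bdd zero_le_one (h.2 z).1 (nearP (hball δ z) v)
  have h4 := norm_sub_le (lin D (nearP (hball δ z) v)) (lin (X z) (nearP (hball δ z) v))
  linarith

end pen

end Pool.Agent.H73.AZ
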